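import Mathlib
import Pool.Agent.helper84.QD.Defs

set_option autoImplicit false
set_option linter.style.haveILetI false

/-!
# Module L of MP_747ad5_an: the literal conditions and the disk conditions
-/

open Metric Set Topology Filter MeasureTheory
open scoped Manifold ContDiff ENNReal ComplexConjugate

namespace Pool.Agent.helper84.QD.ModL

/-! ### the map `z ↦ 1/z` -/

lemma sinv_infty : sinv OnePoint.infty = ((0 : ℂ) : OnePoint ℂ) := rfl

lemma sinv_coe (z : ℂ) : sinv (z : OnePoint ℂ) =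
    if z = 0 then OnePoint.infty else ((z⁻¹ : ℂ) : OnePoint ℂ) := rfl

lemma sinv_coe_zero : sinv ((0 : ℂ) : OnePoint ℂ) = OnePoint.infty := by
  rw [sinv_coe, if_pos rfl]

lemma sinv_coe_ne {z : ℂ} (h : z ≠ 0) : sinv (z : OnePoint ℂ) = ((z⁻¹ : ℂ) : OnePoint ℂ) := by
  rw [sinv_coe, if_neg h]

lemma sinv_sinv (p : OnePoint ℂ) : sinv (sinv p) = p := by
  induction p using OnePoint.rec with
  | infty => rw [sinv_infty, sinv_coe_zero]
  | coe z =>
    by_cases h : z = 0
    · rw [h, sinv_coe_zero, sinv_infty]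
    · rw [sinv_coe_ne h, sinv_coe_ne (inv_ne_zero h), inv_inv]

lemma continuous_sinv : Continuous sinv := by
  rw [continuous_iff_continuousAt]
  intro p
  induction p using OnePoint.rec with
  | infty =>
    rw [OnePoint.continuousAt_infty', coclosedCompact_eq_cocompact, ← Metric.cobounded_eq_cocompact,
      sinv_infty]
    have h1 : Tendsto (fun z : ℂ => ((z⁻¹ : ℂ) : OnePoint ℂ)) (Bornology.cobounded ℂ)
        (𝓝 ((0 : ℂ) : OnePoint ℂ)) :=
      (OnePoint.continuous_coe.tendsto (0 : ℂ)).comp tendsto_inv₀_cobounded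
    refine h1.congr' ?_
    have h2 : ∀ᶠ z : ℂ in Bornology.cobounded ℂ, z ≠ 0 := by
      have h3 : Bornology.IsBounded ({0} : Set ℂ) := Bornology.isBounded_singleton
      rw [Bornology.isBounded_def] at h3
      filter_upwards [h3] with z hz
      exact hz
    filter_upwards [h2] with z hz
    exact (sinv_coe_ne hz).symm
  | coe z =>
    rw [OnePoint.continuousAt_coe]
    by_cases h : z = 0
    · subst h
      change Tendsto (sinv ∘ ((↑) : ℂ → OnePoint ℂ)) (𝓝 0) (𝓝 (sinv ((0 : ℂ) : OnePoint ℂ)))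
      rw [sinv_coe_zero, ← pure_sup_nhdsNE, tendsto_sup]
      constructor
      · rw [tendsto_pure_left]
        intro s hs
        change sinv ((0 : ℂ) : OnePoint ℂ) ∈ s
        rw [sinv_coe_zero]
        exact mem_of_mem_nhds hs
      · have h1 : Tendsto (fun z : ℂ => ((z⁻¹ : ℂ) : OnePoint ℂ)) (𝓝[≠] 0)
            (𝓝 (OnePoint.infty : OnePoint ℂ)) := by
          refine OnePoint.tendsto_coe_infty.comp ?_
          rw [coclosedCompact_eq_cocompact, ← Metric.cobounded_eq_cocompact]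
          exact tendsto_inv₀_nhdsNE_zero
        refine h1.congr' ?_
        filter_upwards [self_mem_nhdsWithin] with z hz
        exact (sinv_coe_ne hz).symm
    · have h1 : ContinuousAt (fun z : ℂ => ((z⁻¹ : ℂ) : OnePoint ℂ)) z :=
        OnePoint.continuous_coe.continuousAt.comp (continuousAt_inv₀ h)
      refine h1.congr ?_
      filter_upwards [isOpen_ne.mem_nhds h] with w hw
      exact (sinv_coe_ne hw).symm

/-- `sinv` as a homeomorphism -/
noncomputable def sinvH : OnePoint ℂ ≃ₜ OnePoint ℂ where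
  toFun := sinv
  invFun := sinv
  left_inv := sinv_sinv
  right_inv := sinv_sinv
  continuous_toFun := continuous_sinv
  continuous_invFun := continuous_sinv

/-! ### holomorphic maps to the sphere -/

lemma holAt_continuousAt {F : ℂ → OnePoint ℂ} {z : ℂ} (h : HolAt F z) : ContinuousAt F z := by
  obtain ⟨g, hg, h | h⟩ := h
  · exact (OnePoint.continuous_coe.continuousAt.comp hg.continuousAt).congr
      (h.mono fun w hw => hw.symm)
  · exact (continuous_sinv.continuousAt.comp
      (OnePoint.continuous_coe.continuousAt.comp hg.continuousAt)).congr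
      (h.mono fun w hw => hw.symm)

lemma holAt_comp {F : ℂ → OnePoint ℂ} {g : ℂ → ℂ} {z : ℂ} (h : HolAt F (g z))
    (hg : AnalyticAt ℂ g z) : HolAt (fun w => F (g w)) z := by
  obtain ⟨k, hk, h | h⟩ := h
  · exact ⟨k ∘ g, hk.comp hg, Or.inl (hg.continuousAt.eventually h)⟩
  · exact ⟨k ∘ g, hk.comp hg, Or.inr (hg.continuousAt.eventually h)⟩

lemma holAt_congr {F F' : ℂ → OnePoint ℂ} {z : ℂ} (h : HolAt F z) (he : F' =ᶠ[𝓝 z] F) :
    HolAt F' z := by
  obtain ⟨k, hk, h | h⟩ := h
  · refine ⟨k, hk, Or.inl ?_⟩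
    filter_upwards [h, he] with w h1 h2
    rw [h2, h1]
  · refine ⟨k, hk, Or.inr ?_⟩
    filter_upwards [h, he] with w h1 h2
    rw [h2, h1]

/-- a function which is injective near `z` is not locally constant -/
lemma not_const {X : Type*} {F : ℂ → X} {U : Set ℂ} (hU : IsOpen U) (hi : InjOn F U) {z : ℂ}
    (hz : z ∈ U) : ¬ ∀ᶠ w in 𝓝 z, F w = F z := by
  intro h
  have h1 : ∀ᶠ w in 𝓝[≠] z, w = z := by
    filter_upwards [nhdsWithin_le_nhds h, nhdsWithin_le_nhds (hU.mem_nhds hz)] with w h1 h2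
    exact hi h2 hz h1
  have h2 : ∀ᶠ w in 𝓝[≠] z, w ≠ z := self_mem_nhdsWithin
  obtain ⟨w, hw1, hw2⟩ := (h1.and h2).exists
  exact hw2 hw1

lemma holAt_open {F : ℂ → OnePoint ℂ} {z : ℂ} (h : HolAt F z)
    (hn : ¬ ∀ᶠ w in 𝓝 z, F w = F z) : 𝓝 (F z) ≤ map F (𝓝 z) := by
  obtain ⟨g, hg, h | h⟩ := h
  · have hz : F z = (g z : OnePoint ℂ) := h.self_of_nhds
    rcases hg.eventually_constant_or_nhds_le_map_nhds with hc | ho
    · exfalso
      apply hn
      filter_upwards [h, hc] with w h1 h2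
      rw [h1, h2, hz]
    · rw [hz, OnePoint.nhds_coe_eq]
      calc map ((↑) : ℂ → OnePoint ℂ) (𝓝 (g z)) ≤ map ((↑) : ℂ → OnePoint ℂ) (map g (𝓝 z)) :=
            map_mono ho
        _ = map F (𝓝 z) := by
            rw [map_map]
            exact map_congr (h.mono fun w hw => hw.symm)
  · have hz : F z = sinv (g z : OnePoint ℂ) := h.self_of_nhds
    rcases hg.eventually_constant_or_nhds_le_map_nhds with hc | ho
    · exfalso
      apply hn
      filter_upwards [h, hc] with w h1 h2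
      rw [h1, h2, hz]
    · have h1 : 𝓝 (sinv (g z : OnePoint ℂ)) = map sinv (𝓝 ((g z : ℂ) : OnePoint ℂ)) :=
        (sinvH.map_nhds_eq ((g z : ℂ) : OnePoint ℂ)).symm
      rw [hz, h1, OnePoint.nhds_coe_eq]
      calc map sinv (map ((↑) : ℂ → OnePoint ℂ) (𝓝 (g z)))
          ≤ map sinv (map ((↑) : ℂ → OnePoint ℂ) (map g (𝓝 z))) := map_mono (map_mono ho)
        _ = map F (𝓝 z) := by
            rw [map_map, map_map]
            exact map_congr (h.mono fun w hw => hw.symm)

/-! ### components under an open embedding of the disk -/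

lemma isOpenEmbedding_of {X : Type*} [TopologicalSpace X] {f : ℂ → X} {B : Set ℂ} (hB : IsOpen B)
    (hc : ∀ z ∈ B, ContinuousAt f z) (hi : InjOn f B) (ho : ∀ z ∈ B, 𝓝 (f z) ≤ map f (𝓝 z)) :
    IsOpenEmbedding (B.domRestrict f) := by
  refine IsOpenEmbedding.of_continuous_injective_isOpenMap ?_ (injOn_iff_injective.1 hi) ?_
  · exact continuousOn_iff_continuous_domRestrict.1 fun z hz => (hc z hz).continuousWithinAt
  · rw [isOpenMap_iff_nhds_le]
    rintro ⟨z, hz⟩
    have h1 : map (B.domRestrict f) (𝓝 (⟨z, hz⟩ : B)) = map f (𝓝 z) := by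
      have h2 : map ((↑) : B → ℂ) (𝓝 (⟨z, hz⟩ : B)) = 𝓝 z := by
        rw [map_nhds_subtype_coe_eq_nhds hz (hB.mem_nhds hz)]
      rw [← h2, map_map]
      rfl
    rw [h1]
    exact ho z hz

section comps

variable {X : Type*} [TopologicalSpace X] {f : ℂ → X} {B : Set ℂ}

lemma preconn_of_image (he : IsOpenEmbedding (B.domRestrict f)) {T : Set ℂ} (hT : T ⊆ B)
    (h : IsPreconnected (f '' T)) : IsPreconnected T := by
  have h1 : f '' T = (B.domRestrict f) '' (((↑) : B → ℂ) ⁻¹' T) := by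
    ext x
    constructor
    · rintro ⟨z, hz, rfl⟩
      exact ⟨⟨z, hT hz⟩, hz, rfl⟩
    · rintro ⟨z, hz, rfl⟩
      exact ⟨z.1, hz, rfl⟩
  rw [h1, he.isInducing.isPreconnected_image] at h
  have h2 : T = ((↑) : B → ℂ) '' (((↑) : B → ℂ) ⁻¹' T) := by
    rw [Subtype.image_preimage_coe, inter_eq_right.2 hT]
  rw [h2]
  exact h.image _ continuous_subtype_val.continuousOn

lemma image_preconn (he : IsOpenEmbedding (B.domRestrict f)) {T : Set ℂ} (hT : T ⊆ B)
    (h : IsPreconnected T) : IsPreconnected (f '' T) :=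
  h.image f ((continuousOn_iff_continuous_domRestrict.2 he.continuous).mono hT)

lemma comp_eq (he : IsOpenEmbedding (B.domRestrict f)) {S : Set X} (hS : S ⊆ f '' B) {z : ℂ}
    (hz : z ∈ B) (hzS : f z ∈ S) :
    {w ∈ B | f w ∈ connectedComponentIn S (f z)} = connectedComponentIn {w ∈ B | f w ∈ S} z := by
  have hzS' : z ∈ {w ∈ B | f w ∈ S} := ⟨hz, hzS⟩
  apply Subset.antisymm
  · have h1 : f '' {w ∈ B | f w ∈ connectedComponentIn S (f z)} = connectedComponentIn S (f z) := by
      apply Subset.antisymm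
      · rintro _ ⟨w, hw, rfl⟩
        exact hw.2
      · intro x hx
        obtain ⟨w, hw, rfl⟩ := hS (connectedComponentIn_subset S (f z) hx)
        exact ⟨w, ⟨hw, hx⟩, rfl⟩
    have h2 : IsPreconnected {w ∈ B | f w ∈ connectedComponentIn S (f z)} := by
      apply preconn_of_image he (fun w hw => hw.1)
      rw [h1]
      exact isPreconnected_connectedComponentIn
    refine h2.subset_connectedComponentIn ⟨hz, mem_connectedComponentIn hzS⟩ ?_
    rintro w ⟨hw, hw2⟩
    exact ⟨hw, connectedComponentIn_subset S (f z) hw2⟩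
  · intro w hw
    have hw' := connectedComponentIn_subset _ _ hw
    refine ⟨hw'.1, ?_⟩
    have h1 : IsPreconnected (f '' connectedComponentIn {w ∈ B | f w ∈ S} z) :=
      image_preconn he (fun w hw => (connectedComponentIn_subset _ _ hw).1)
        isPreconnected_connectedComponentIn
    have h2 : f '' connectedComponentIn {w ∈ B | f w ∈ S} z ⊆ S := by
      rintro _ ⟨v, hv, rfl⟩
      exact (connectedComponentIn_subset _ _ hv).2
    exact h1.subset_connectedComponentIn ⟨z, mem_connectedComponentIn hzS', rfl⟩ h2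
      ⟨w, hw, rfl⟩

theorem diamSum_eq {f : ℂ → X} (he : IsOpenEmbedding ((ball (0 : ℂ) 1).domRestrict f)) {S : Set X}
    (hS : S ⊆ f '' ball 0 1) : diamSum S f = cSum {w ∈ ball 0 1 | f w ∈ S} := by
  have hmem : ∀ C : Comps S, {z ∈ ball (0 : ℂ) 1 | f z ∈ C.1} ∈
      Comps {w ∈ ball (0 : ℂ) 1 | f w ∈ S} := by
    rintro ⟨C, x, hx, rfl⟩
    obtain ⟨z, hz, rfl⟩ := hS hx
    exact ⟨z, ⟨hz, hx⟩, comp_eq he hS hz hx⟩
  let φ : Comps S → Comps {w ∈ ball (0 : ℂ) 1 | f w ∈ S} := fun C => ⟨_, hmem C⟩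
  have hφ : Function.Bijective φ := by
    constructor
    · rintro ⟨C, x, hx, hC⟩ ⟨C', x', hx', hC'⟩ h
      have h1 : {z ∈ ball (0 : ℂ) 1 | f z ∈ C} = {z ∈ ball (0 : ℂ) 1 | f z ∈ C'} :=
        congrArg Subtype.val h
      have hsub : C ⊆ S := by rw [hC]; exact connectedComponentIn_subset _ _
      have hsub' : C' ⊆ S := by rw [hC']; exact connectedComponentIn_subset _ _
      refine Subtype.ext (Subset.antisymm ?_ ?_)
      · intro y hy
        obtain ⟨z, hz, rfl⟩ := hS (hsub hy)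
        have : z ∈ {z ∈ ball (0 : ℂ) 1 | f z ∈ C} := ⟨hz, hy⟩
        rw [h1] at this
        exact this.2
      · intro y hy
        obtain ⟨z, hz, rfl⟩ := hS (hsub' hy)
        have : z ∈ {z ∈ ball (0 : ℂ) 1 | f z ∈ C'} := ⟨hz, hy⟩
        rw [← h1] at this
        exact this.2
    · rintro ⟨C, z, ⟨hz, hzS⟩, rfl⟩
      exact ⟨⟨connectedComponentIn S (f z), f z, hzS, rfl⟩, Subtype.ext (comp_eq he hS hz hzS)⟩
  unfold diamSum cSum
  exact (Equiv.ofBijective φ hφ).tsum_eq
    (fun C : Comps {w ∈ ball (0 : ℂ) 1 | f w ∈ S} => Metric.ediam C.1)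

end comps

lemma isOpenEmbedding_hol {f : ℂ → OnePoint ℂ} (hf : ∀ z ∈ ball (0 : ℂ) 1, HolAt f z)
    (hi : InjOn f (ball 0 1)) : IsOpenEmbedding ((ball (0 : ℂ) 1).domRestrict f) :=
  isOpenEmbedding_of isOpen_ball (fun z hz => holAt_continuousAt (hf z hz)) hi
    (fun z hz => holAt_open (hf z hz) (not_const isOpen_ball hi hz))

instance : ContractibleSpace (ball (0 : ℂ) 1) :=
  (convex_ball (0 : ℂ) 1).contractibleSpace ⟨0, mem_ball_self one_pos⟩

lemma isSimplyConnected_ball : IsSimplyConnected (ball (0 : ℂ) 1) :=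
  (inferInstance : SimplyConnectedSpace (ball (0 : ℂ) 1))

end Pool.Agent.helper84.QD.ModL

namespace Pool.Agent.helper84.QD

open ModL

/-! ## Module L : the literal conditions -/
theorem core_of_DC {Γ : Set (OnePoint ℂ)} {A : ℝ} (h : DCWith Γ A) : CoreDC Γ A := by
  intro f hf hi
  have he := isOpenEmbedding_hol hf hi
  have hran : range ((ball (0 : ℂ) 1).domRestrict f) = f '' ball 0 1 := range_domRestrict f _
  have hopen : IsOpen (f '' ball 0 1) := by rw [← hran]; exact he.isOpen_range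
  have hsc : IsSimplyConnected (f '' ball 0 1) := by
    have h1 : f '' ball 0 1 = ((ball (0 : ℂ) 1).domRestrict f) '' univ := by rw [image_univ, hran]
    rw [h1, he.isEmbedding.isSimplyConnected_image]
    haveI : SimplyConnectedSpace (ball (0 : ℂ) 1) := isSimplyConnected_ball
    exact (Homeomorph.Set.univ (ball (0 : ℂ) 1)).toHomotopyEquiv.simplyConnectedSpace
  have h1 := h _ hopen hsc f hf ⟨mapsTo_image f _, hi, surjOn_image f _⟩
  rw [diamSum_eq he inter_subset_right] at h1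
  have h2 : {w ∈ ball (0 : ℂ) 1 | f w ∈ Γ ∩ f '' ball 0 1} = ovr Γ f (ball 0 1) := by
    ext w
    constructor
    · rintro ⟨hw, hw2⟩
      exact ⟨hw, hw2.1⟩
    · rintro ⟨hw, hw2⟩
      exact ⟨hw, hw2, mem_image_of_mem f hw⟩
  rw [h2] at h1
  exact h1

theorem DCR_of_core {Γ : Set (OnePoint ℂ)} {A : ℝ} (hA : CoreDCR Γ A) : DCRWith Γ A := by
  intro R _ _ _ _ _ π hπ hnc hinj f hf hbij
  -- the map in the chart
  have hana : ∀ z ∈ ball (0 : ℂ) 1, AnalyticAt ℂ (chartAt ℂ (f z) ∘ f) z := by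
    intro z hz
    have h1 := (contMDiffAt_iff.1 (hf.contMDiffAt (isOpen_ball.mem_nhds hz))).2
    simp only [mfld_simps] at h1
    exact analyticWithinAt_univ.1 (contDiffWithinAt_omega_iff_analyticWithinAt.1 h1)
  have hcont : ∀ z ∈ ball (0 : ℂ) 1, ContinuousAt f z := fun z hz =>
    (hf.contMDiffAt (isOpen_ball.mem_nhds hz)).continuousAt
  have hsrc : ∀ z ∈ ball (0 : ℂ) 1, ∀ᶠ w in 𝓝 z, f w ∈ (chartAt ℂ (f z)).source := fun z hz =>
    (hcont z hz).eventually_mem ((chartAt ℂ (f z)).open_source.mem_nhds (mem_chart_source ℂ (f z)))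
  have hhol : ∀ z ∈ ball (0 : ℂ) 1, HolAt (fun w => π (f w)) z := by
    intro z hz
    refine holAt_congr (holAt_comp (hπ (f z)) (hana z hz)) ?_
    filter_upwards [hsrc z hz] with w hw
    simp only [Function.comp_apply]
    rw [(chartAt ℂ (f z)).left_inv hw]
  have hadm : Adm Γ (fun w => π (f w)) 1 := by
    refine ⟨hhol, ?_, ?_⟩
    · obtain ⟨x, y, hxy⟩ := hnc
      obtain ⟨a, ha, rfl⟩ := hbij.surjOn (mem_univ x)
      obtain ⟨b, hb, rfl⟩ := hbij.surjOn (mem_univ y)
      exact ⟨a, ha, b, hb, hxy⟩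
    · intro x hx y hy hxΓ hxy
      exact hbij.injOn hx hy (hinj _ _ hxΓ hxy)
  have hopen : ∀ z ∈ ball (0 : ℂ) 1, 𝓝 (f z) ≤ map f (𝓝 z) := by
    intro z hz
    have h1 : 𝓝 ((chartAt ℂ (f z) ∘ f) z) ≤ map (chartAt ℂ (f z) ∘ f) (𝓝 z) := by
      rcases (hana z hz).eventually_constant_or_nhds_le_map_nhds with hc | ho
      · exfalso
        apply not_const isOpen_ball hbij.injOn hz
        filter_upwards [hc, hsrc z hz] with w hw hw2
        exact (chartAt ℂ (f z)).injOn hw2 (mem_chart_source ℂ (f z)) hw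
      · exact ho
    calc 𝓝 (f z) = map (chartAt ℂ (f z)).symm (𝓝 (chartAt ℂ (f z) (f z))) :=
          ((chartAt ℂ (f z)).symm_map_nhds_eq (mem_chart_source ℂ (f z))).symm
      _ ≤ map (chartAt ℂ (f z)).symm (map (chartAt ℂ (f z) ∘ f) (𝓝 z)) := map_mono h1
      _ = map f (𝓝 z) := by
          rw [map_map]
          refine Filter.map_congr ?_
          filter_upwards [hsrc z hz] with w hw
          simp only [Function.comp_apply]
          exact (chartAt ℂ (f z)).left_inv hw
  have he := isOpenEmbedding_of isOpen_ball hcont hbij.injOn hopen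
  rw [diamSum_eq he (by rw [hbij.image_eq]; exact subset_univ _)]
  exact hA _ hadm

theorem DC_of_DCR {Γ : Set (OnePoint ℂ)} {A : ℝ} (hA : DCRWith Γ A) : DCWith Γ A := by
  classical
  intro D hD hDs f hf hbij
  have he := isOpenEmbedding_hol hf hbij.injOn
  let U : TopologicalSpace.Opens ℂ := ⟨ball 0 1, isOpen_ball⟩
  haveI : SimplyConnectedSpace U := isSimplyConnected_ball
  let f' : ℂ → U := fun z => if hz : z ∈ ball (0 : ℂ) 1 then ⟨z, hz⟩ else
    ⟨0, mem_ball_self one_pos⟩
  have hf' : ∀ z (hz : z ∈ ball (0 : ℂ) 1), f' z = ⟨z, hz⟩ := fun z hz => dif_pos hz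
  have hemb : IsOpenEmbedding ((ball (0 : ℂ) 1).domRestrict f') := by
    have h1 : (ball (0 : ℂ) 1).domRestrict f' = (id : U → U) := by
      ext z
      simp only [domRestrict_apply, id_eq]
      rw [hf' z.1 z.2]
    rw [h1]
    exact IsOpenEmbedding.id
  have hbij' : BijOn f' (ball 0 1) univ := by
    refine ⟨mapsTo_univ _ _, ?_, ?_⟩
    · intro x hx y hy hxy
      rw [hf' x hx, hf' y hy] at hxy
      exact congrArg Subtype.val hxy
    · rintro ⟨x, hx⟩ _
      exact ⟨x, hx, hf' x hx⟩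
  have hcm : ContMDiffOn 𝓘(ℂ, ℂ) 𝓘(ℂ, ℂ) ω f' (ball 0 1) := by
    intro z hz
    apply ContMDiffAt.contMDiffWithinAt
    rw [contMDiffAt_iff]
    constructor
    · have h1 := hemb.continuous
      exact (continuousOn_iff_continuous_domRestrict.2 h1).continuousAt (isOpen_ball.mem_nhds hz)
    · simp only [mfld_simps]
      rw [contDiffWithinAt_univ]
      refine contDiffAt_id.congr_of_eventuallyEq ?_
      filter_upwards [isOpen_ball.mem_nhds hz] with w hw
      change (chartAt ℂ (f' z)) (f' w) = w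
      rw [hf' w hw, hf' z hz]
      rfl
  have hsurf : SurfHol (fun x : U => f x.1) := by
    intro x
    have h1 : HolAt f x.1 := hf x.1 x.2
    have h2 : chartAt ℂ x x = x.1 := rfl
    rw [h2]
    refine holAt_congr h1 ?_
    have h3 := TopologicalSpace.Opens.chartAt_subtype_val_symm_eventuallyEq (H := ℂ) U (x := x)
    have h4 : (chartAt ℂ x.1) x.1 = x.1 := rfl
    rw [h4] at h3
    filter_upwards [h3] with w hw
    have h5 : (chartAt ℂ x.1).symm w = w := rfl
    rw [h5] at hw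
    simp only [Function.comp_apply] at hw
    rw [← hw]
  have hnc : ∃ x y : U, f x.1 ≠ f y.1 := by
    refine ⟨⟨0, mem_ball_self one_pos⟩, ⟨1 / 2, ?_⟩, ?_⟩
    · change (1 / 2 : ℂ) ∈ ball 0 1
      rw [mem_ball_zero_iff]
      norm_num
    · intro h
      have h1 : (0 : ℂ) ∈ ball (0 : ℂ) 1 := mem_ball_self one_pos
      have h2 : (1 / 2 : ℂ) ∈ ball (0 : ℂ) 1 := by
        rw [mem_ball_zero_iff]
        norm_num
      have := hbij.injOn h1 h2 h
      norm_num at this
  have h1 := hA U (fun x : U => f x.1) hsurf hnc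
    (fun x y _ hxy => Subtype.ext (hbij.injOn x.2 y.2 hxy)) f' hcm hbij'
  rw [diamSum_eq hemb (by rw [hbij'.image_eq]; exact subset_univ _)] at h1
  rw [diamSum_eq he (by rw [hbij.image_eq]; exact inter_subset_right)]
  have h2 : {w ∈ ball (0 : ℂ) 1 | f w ∈ Γ ∩ D} =
      {w ∈ ball (0 : ℂ) 1 | f' w ∈ (fun x : U => f x.1) ⁻¹' Γ} := by
    ext w
    constructor
    · rintro ⟨hw, hw2⟩
      refine ⟨hw, ?_⟩
      change f (f' w).1 ∈ Γ
      rw [hf' w hw]
      exact hw2.1
    · rintro ⟨hw, hw2⟩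
      refine ⟨hw, ?_, hbij.mapsTo hw⟩
      change f (f' w).1 ∈ Γ at hw2
      rw [hf' w hw] at hw2
      exact hw2
  rw [h2]
  exact h1

end Pool.Agent.helper84.QD
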